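import Pool.Agent.helper51.QS.SpecB

set_option autoImplicit false

namespace Pool.Agent.QS

open Pool.Agent.PC MvPolynomial

universe u

/-- Nullstellensatz: the residue field at a closed point is `k`. -/
theorem WLD_res {k A : Type u} [Field k] [IsAlgClosed k] [CommRing A] [Algebra k A]
    [Algebra.FiniteType k A] (m : Ideal A) (hm : m.IsMaximal) (a : A) :
    ∃ c : k, a - algebraMap k A c ∈ m := by
  let _ := Ideal.Quotient.field m
  have h1 : Module.Finite k (A ⧸ m) := finite_of_finite_type_of_isJacobsonRing k (A ⧸ m)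
  have h2 := IsAlgClosed.algebraMap_bijective_of_isIntegral (k := k) (K := A ⧸ m)
  obtain ⟨c, hc⟩ := h2.2 (Ideal.Quotient.mk m a)
  refine ⟨c, ?_⟩
  rw [← Ideal.Quotient.eq, ← hc]
  rfl

theorem WLD_sum (n : ℕ) (w : Fin n → ℕ) (hw : ∀ i, w i = n + i) :
    2 * ∑ i, (w i : ℤ) = (n : ℤ) * (3 * n - 1) := by
  have h1 : ∑ i, (w i : ℤ) = ∑ i : Fin n, ((n : ℤ) + ((i : ℕ) : ℤ)) := by
    refine Finset.sum_congr rfl fun i _ => ?_
    rw [hw i]
    push_cast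
    rfl
  have h2 : ∀ N : ℕ, 2 * ∑ i ∈ Finset.range N, ((i : ℕ) : ℤ) = (N : ℤ) * (N - 1) := by
    intro N
    induction N with
    | zero => simp
    | succ N ih =>
      rw [Finset.sum_range_succ, mul_add, ih]
      push_cast
      ring
  rw [h1, Finset.sum_add_distrib, Finset.sum_const, Finset.card_univ, Fintype.card_fin,
    Fin.sum_univ_eq_sum_range (fun i => ((i : ℕ) : ℤ)) n, mul_add, h2 n, nsmul_eq_mul]
  ring

theorem WLD_num (n p : ℕ) (h : 3 * n * (n - 1) < 2 * p) (w : Fin n → ℕ)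
    (hw : ∀ i, w i = n + i) (h2 : 2 ≤ n) (t : ℤ) (h1 : (n : ℤ) ≤ t)
    (h3 : t < -((p : ℤ) - 1 - ∑ i, (w i : ℤ))) : False := by
  have hs := WLD_sum n w hw
  obtain ⟨q, rfl⟩ : ∃ q, n = q + 1 := ⟨n - 1, by omega⟩
  simp only [Nat.add_sub_cancel] at h
  have h4 : (3 : ℤ) * ((q : ℤ) + 1) * q < 2 * p := by exact_mod_cast h
  push_cast at hs h1
  nlinarith

theorem WLD (hCRE : CRE_stmt.{u}) (hDUA : DUA_stmt.{u}) (hQRR : QRR_stmt.{u}) (hTAY : TAY_stmt.{u}) (hPYY : PYY_stmt.{u}) (hWVL : WVL_stmt.{u}) (hYWV : YWV_stmt.{u}) (hWTR : WTR_stmt.{u}) (hFLG : FLG_stmt.{u}) (hSGB : SGB_stmt.{u}) (hPSI : PSI_stmt.{u}) (hGAL : GAL_stmt.{u}) (hDSQ : DSQ_stmt.{u}) : WLD_stmt.{u} := by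
  intro k R A F K G _ _ _ _ _ _ _ _ _ _ _ _ _ _ _ _ _ _ _ _ _ _ _ _ _ _ _ _ _ _ _ _ _ _
    n p _ _ x hx hfin h2n hnp hact ω μ g hω hg hμ m _ hdis t htm hrep σ hσm hord
  have hp2 : 2 < p := by
    have h1 : 3 * 2 * (2 - 1) ≤ 3 * n * (n - 1) :=
      Nat.mul_le_mul (Nat.mul_le_mul_left 3 h2n) (by omega)
    omega
  have hnoeth : IsNoetherianRing A := Algebra.FiniteType.isNoetherianRing k A
  have hres : ∀ a : A, ∃ c : k, a - algebraMap k A c ∈ m := fun a => WLD_res m inferInstance a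
  have hmtop : m ≠ ⊤ := Ideal.IsMaximal.ne_top inferInstance
  have hy0 := hCRE k A K n hfin m inferInstance
  -- the automorphism
  obtain ⟨σ', hσ'⟩ : ∃ σ' : A →ₐ[k] A, ∀ a, σ' a = σ • a :=
    ⟨MulSemiringAction.toAlgHom k A σ, fun a => rfl⟩
  have hσp : ∀ a, σ'^[p] a = a := by
    intro a
    have h1 : ∀ N : ℕ, σ'^[N] a = σ ^ N • a := by
      intro N
      induction N with
      | zero => simp
      | succ N ih => rw [Function.iterate_succ_apply', ih, hσ', pow_succ', mul_smul]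
    rw [h1, ← hord, pow_orderOf_eq_one, one_smul]
  have hσ'm : ∀ a ∈ m, σ' a ∈ m := fun a ha => by rw [hσ']; exact hσm a ha
  have hσ1 : σ ≠ 1 := by
    intro h
    rw [h, orderOf_one] at hord
    omega
  obtain ⟨y, hy, hyf⟩ := hFLG k A n p m σ' hσ'm hσp hy0
  obtain ⟨D, hD⟩ := hDUA k A K n hfin m inferInstance y hy
  obtain ⟨φ, hφ⟩ := hTAY k A n m hres y hy (hQRR k A n m hmtop hres y hy)
  obtain ⟨w, hw⟩ : ∃ w : Fin n → ℕ, ∀ i : Fin n, w i = n + i := ⟨fun i => n + i, fun i => rfl⟩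
  obtain ⟨i0, hi0⟩ : ∃ i0 : Fin n, (i0 : ℕ) = 0 := ⟨⟨0, by omega⟩, rfl⟩
  obtain ⟨i1, hi1⟩ : ∃ i1 : Fin n, (i1 : ℕ) = 1 := ⟨⟨1, by omega⟩, rfl⟩
  obtain ⟨v, hv⟩ := hWVL k A K n m y φ hφ w (Or.inr ⟨i1, i0, by rw [hw, hw, hi0, hi1]⟩)
  obtain ⟨hv1, hv2, hv3, hv4, hv5⟩ := hYWV k A K n m y φ hφ w v hv
  have hcw : ∀ i, n ≤ w i := fun i => by rw [hw]; omega
  have hmv : ∀ a ∈ m, Ge v (n : ℤ) (algebraMap A K a) := by
    intro a ha
    have h1 := hv5 n hcw 1 a (by rw [pow_one]; exact ha)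
    rw [mul_one] at h1
    exact h1
  obtain ⟨a, ha⟩ := hWTR k A K n m y φ hφ w v hv ⟨i0, by rw [hw]; omega⟩
  obtain ⟨hFD, hsep, hgal⟩ := hGAL k R A F K G
  obtain ⟨s, hs1, hs2⟩ := hgal σ
  obtain ⟨Ψ, hΨ⟩ := hPSI k F K n D (fun i => algebraMap A K (y i)) hD.1 hfin
  obtain ⟨u, s', hs', hrepr⟩ := hrep D y hD.1 Ψ hΨ
  -- the element t is not 0
  have ht0 : algebraMap A K t ≠ 0 := by
    intro h
    rw [h, zero_pow hμ.ne', zero_mul, zero_div, div_eq_zero_iff] at hrepr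
    rcases hrepr with h1 | h1
    · exact hg ((map_eq_zero (algebraMap F K)).1 h1)
    · exact hω (hΨ.2.1 ω (pow_eq_zero_iff hμ.ne' |>.1 h1))
  have htv : (n : ℤ) ≤ v (algebraMap A K t) := by
    rcases hmv t htm with h | h
    · exact absurd h ht0
    · exact h
  have hlog : LogGe F v D ((p : ℤ) - 1 - ∑ i, (w i : ℤ)) := by
    intro f hf
    refine hSGB k A K n p hp2 m y φ D hφ hD w v hw hv σ' s (fun b => by rw [hs1, hσ']) hσ'm hσp
      ?_ hyf (fun i => algebraMap F K (f i)) (fun i => ⟨?_, hs2 _⟩)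
    · obtain ⟨b, hb⟩ := hact σ hσ1
      exact ⟨b, by rw [hσ']; exact hb⟩
    · exact (map_ne_zero (algebraMap F K)).2 (hf i)
  obtain ⟨𝔮, hq1, hq2, hq3, hq4⟩ := hPYY k A n m y φ hφ 1
  have hy0q : y i0 ∈ 𝔮 := by
    rw [hq3]
    refine ⟨1, fun h => hmtop ((Ideal.eq_top_iff_one m).2 h), ?_⟩
    rw [one_mul]
    exact Ideal.subset_span ⟨i0, by omega, rfl⟩
  have hqbot : 𝔮 ≠ ⊥ := by
    intro h
    rw [h, Ideal.mem_bot] at hy0q
    exact (hv1 i0).1 (by rw [hy0q, map_zero])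
  have hy1q : y i1 ∉ 𝔮 := by
    intro h
    have h1 := (hq4 (y i1)).1 h (Finsupp.single i1 1) (fun i hi => by
      rw [Finsupp.single_apply, if_neg]
      intro h3
      rw [← h3] at hi
      omega)
    rw [hφ.1, MvPowerSeries.coeff_X, if_pos rfl] at h1
    exact one_ne_zero h1
  have hlast := hDSQ k R A F K G n p x hx D Ψ hΨ ω μ g hω hg hμ m hdis t u s' hs' hrepr v
    ((p : ℤ) - 1 - ∑ i, (w i : ℤ)) hv.1 hv2 hv3 hv4 ⟨a, ha⟩ 𝔮 hq1 hqbot
    (fun b hb => by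
      rcases hmv b (hq2 hb) with h | h
      · exact Or.inl h
      · exact Or.inr (by omega))
    ⟨y i1, Or.inr (by rw [(hv1 i1).2, hw]; push_cast; omega), hy1q⟩ hlog
  exact WLD_num n p hnp w hw h2n _ htv hlast

end Pool.Agent.QS
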