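import Pool.Agent.helper32.QS.Spec

/-!
# qs:KST: the next step in an `E`-invariant series
-/

set_option autoImplicit false

open scoped BigOperators commutatorElement

namespace QS

/-- the norm of an element is trivial if there are no fixed points. -/
lemma KST_norm {E M : Type} [Group E] [CommGroup M] (F : E → (M →* M))
    (hF1 : ∀ m, F 1 m = m) (hF : ∀ x y m, F (x * y) m = F x (F y m)) (p : ℕ) (e : E)
    (he : e ^ p = 1) (hfix : ∀ m, F e m = m → m = 1) (m : M) :
    ∏ i ∈ Finset.range p, F (e ^ i) m = 1 := by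
  apply hfix
  rw [map_prod]
  have h1 : ∀ i, F e (F (e ^ i) m) = F (e ^ (i + 1)) m := by
    intro i
    rw [pow_succ', hF]
  rw [Finset.prod_congr rfl (fun i _ => h1 i)]
  have h2 := Finset.prod_range_succ (fun i => F (e ^ i) m) p
  have h3 := Finset.prod_range_succ' (fun i => F (e ^ i) m) p
  rw [h2] at h3
  simp only [he, pow_zero, hF1] at h3
  exact (mul_right_cancel h3).symm

/-- the averaging argument for a group of rank two. -/
lemma KST_abs {E M : Type} [Group E] [CommGroup M] (F : E → (M →* M))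
    (hF1 : ∀ m, F 1 m = m) (hF : ∀ x y m, F (x * y) m = F x (F y m)) (p : ℕ) (hp : p.Prime)
    (a b : E) (hab : Commute a b) (ha : a ^ p = 1) (hb : b ^ p = 1)
    (h1 : ∀ m, F b m = m → m = 1) (h2 : ∀ j : ℕ, ∀ m, F (a * b ^ j) m = m → m = 1)
    (hpm : ∀ m : M, m ^ p = 1 → m = 1) (m : M) : m = 1 := by
  apply hpm
  have hcj : ∀ j : ℕ, Commute a (b ^ j) := fun j => hab.pow_right j
  have hN : ∀ j : ℕ, ∏ i ∈ Finset.range p, F ((a * b ^ j) ^ i) m = 1 := by
    intro j
    apply KST_norm F hF1 hF p (a * b ^ j) _ (h2 j)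
    rw [(hcj j).mul_pow, ha, ← pow_mul, mul_comm j p, pow_mul, hb, one_pow, one_mul]
  have hsum : ∏ j ∈ Finset.range p, ∏ i ∈ Finset.range p, F ((a * b ^ j) ^ i) m = 1 :=
    Finset.prod_eq_one fun j _ => hN j
  rw [Finset.prod_comm] at hsum
  have hterm : ∀ i : ℕ, ∏ j ∈ Finset.range p, F ((a * b ^ j) ^ i) m =
      F (a ^ i) (∏ j ∈ Finset.range p, F ((b ^ i) ^ j) m) := by
    intro i
    rw [map_prod]
    apply Finset.prod_congr rfl
    intro j _
    rw [(hcj j).mul_pow, hF, ← pow_mul, ← pow_mul, mul_comm j i]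
  have hpos : 0 < p := hp.pos
  have hzero : ∀ i ∈ Finset.range p, i ≠ 0 → ∏ j ∈ Finset.range p, F ((a * b ^ j) ^ i) m = 1 := by
    intro i hi hi0
    rw [Finset.mem_range] at hi
    rw [hterm i]
    have hco : i.Coprime p := by
      have := Nat.coprime_of_lt_prime hi0 hi hp
      exact this.symm
    have hco2 : i.Coprime (orderOf b) :=
      Nat.Coprime.coprime_dvd_right (orderOf_dvd_of_pow_eq_one hb) hco
    obtain ⟨k, hk⟩ := exists_pow_eq_self_of_coprime hco2
    have hn : ∏ j ∈ Finset.range p, F ((b ^ i) ^ j) m = 1 := by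
      apply KST_norm F hF1 hF p (b ^ i)
      · rw [← pow_mul, mul_comm, pow_mul, hb, one_pow]
      · intro m' hm'
        apply h1
        have hpow : ∀ l : ℕ, F ((b ^ i) ^ l) m' = m' := by
          intro l
          induction l with
          | zero => rw [pow_zero, hF1]
          | succ l ih => rw [pow_succ, hF, hm', ih]
        have := hpow k
        rwa [hk] at this
    rw [hn, map_one]
  rw [Finset.prod_eq_single_of_mem 0 (Finset.mem_range.2 hpos) hzero] at hsum
  simpa [hF1] using hsum

/-- the subgroup `H`. -/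
def KST_H {G : Type} [Group G] (K K₁ E : Subgroup G)
    (hinv : ∀ e ∈ E, ∀ a ∈ K₁, e * a * e⁻¹ ∈ K₁) : Subgroup G where
  carrier := {e | e ∈ E ∧ ∀ a ∈ K, ⁅e, a⁆ ∈ K₁}
  one_mem' := ⟨E.one_mem, fun a _ => by
    simp [commutatorElement_def, K₁.one_mem]⟩
  mul_mem' := by
    rintro e f ⟨he, he'⟩ ⟨hf, hf'⟩
    refine ⟨E.mul_mem he hf, fun a ha => ?_⟩
    have h : ⁅e * f, a⁆ = (e * ⁅f, a⁆ * e⁻¹) * ⁅e, a⁆ := by
      simp only [commutatorElement_def]; group
    rw [h]
    exact K₁.mul_mem (hinv e he _ (hf' a ha)) (he' a ha)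
  inv_mem' := by
    rintro e ⟨he, he'⟩
    refine ⟨E.inv_mem he, fun a ha => ?_⟩
    have h : ⁅e⁻¹, a⁆ = e⁻¹ * (⁅e, a⁆)⁻¹ * (e⁻¹)⁻¹ := by
      simp only [commutatorElement_def]; group
    rw [h]
    exact hinv e⁻¹ (E.inv_mem he) _ (K₁.inv_mem (he' a ha))

/-- the subgroup of elements of `K` whose commutator with `e` lies in `K₁`. -/
def KST_L {G : Type} [Group G] (K K₁ : Subgroup G) (e : G)
    (hnor : ∀ x ∈ K, ∀ a ∈ K₁, x * a * x⁻¹ ∈ K₁) : Subgroup G where
  carrier := {a | a ∈ K ∧ ⁅e, a⁆ ∈ K₁}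
  one_mem' := ⟨K.one_mem, by simp [commutatorElement_def, K₁.one_mem]⟩
  mul_mem' := by
    rintro a b ⟨ha, ha'⟩ ⟨hb, hb'⟩
    refine ⟨K.mul_mem ha hb, ?_⟩
    have h : ⁅e, a * b⁆ = ⁅e, a⁆ * (a * ⁅e, b⁆ * a⁻¹) := by
      simp only [commutatorElement_def]; group
    rw [h]
    exact K₁.mul_mem ha' (hnor a ha _ hb')
  inv_mem' := by
    rintro a ⟨ha, ha'⟩
    refine ⟨K.inv_mem ha, ?_⟩
    have h : ⁅e, a⁻¹⁆ = a⁻¹ * (⁅e, a⁆)⁻¹ * (a⁻¹)⁻¹ := by
      simp only [commutatorElement_def]; group
    rw [h]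
    exact hnor a⁻¹ (K.inv_mem ha) _ (K₁.inv_mem ha')

theorem KST : KST_stmt := by
  intro G _ _ p hp K E hsol hK hpK hE hEK
  classical
  -- the commutator subgroup is proper
  have hcomm : ⁅K, K⁆ < K := by
    have := hsol
    have : Nontrivial K := (Subgroup.nontrivial_iff_ne_bot K).2 hK
    have h1 := Group.IsSolvable.commutator_lt_top_of_nontrivial (G := K)
    rw [← Subgroup.map_subtype_commutator]
    refine lt_of_le_of_ne (Subgroup.map_subtype_le _) ?_
    intro h
    apply h1.ne
    rw [← top_le_iff]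
    intro x _
    have hx : (x : G) ∈ Subgroup.map K.subtype (commutator K) := by
      rw [h]; exact x.2
    obtain ⟨y, hy, hyx⟩ := hx
    have : y = x := Subtype.ext hyx
    exact this ▸ hy
  -- maximal choice
  let 𝒮 : Set (Subgroup G) := {L | ⁅K, K⁆ ≤ L ∧ L < K ∧ ∀ e ∈ E, ∀ a ∈ L, e * a * e⁻¹ ∈ L}
  have hinvK : ∀ e ∈ E, ∀ a ∈ ⁅K, K⁆, e * a * e⁻¹ ∈ ⁅K, K⁆ := by
    intro e he a ha
    have hmap : Subgroup.map (MulAut.conj e).toMonoidHom K ≤ K := by
      rintro _ ⟨x, hx, rfl⟩
      exact hEK e he x hx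
    have h1 : Subgroup.map (MulAut.conj e).toMonoidHom ⁅K, K⁆ ≤ ⁅K, K⁆ := by
      rw [Subgroup.map_commutator]
      exact Subgroup.commutator_mono hmap hmap
    exact h1 ⟨a, ha, rfl⟩
  have hne : 𝒮.Nonempty := ⟨⁅K, K⁆, le_refl _, hcomm, hinvK⟩
  obtain ⟨K₁, hK₁, hmax⟩ := (Set.toFinite 𝒮).exists_maximal hne
  obtain ⟨hcK₁, hltK, hinv⟩ := hK₁
  have hmax' : ∀ L : Subgroup G, K₁ ≤ L → L ≤ K → (∀ e ∈ E, ∀ a ∈ L, e * a * e⁻¹ ∈ L) →
      L = K₁ ∨ L = K := by
    intro L hL1 hL2 hL3
    by_cases h : L = K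
    · exact Or.inr h
    · left
      exact le_antisymm (hmax ⟨hcK₁.trans hL1, lt_of_le_of_ne hL2 h, hL3⟩ hL1) hL1
  have hnor : ∀ x ∈ K, ∀ a ∈ K₁, x * a * x⁻¹ ∈ K₁ := by
    intro x hx a ha
    have h : x * a * x⁻¹ = ⁅x, a⁆ * a := by
      simp only [commutatorElement_def]; group
    rw [h]
    exact K₁.mul_mem (hcK₁ (Subgroup.commutator_mem_commutator hx (hltK.le ha))) ha
  -- the kernel
  let H : Subgroup G := KST_H K K₁ E hinv
  have hHmem : ∀ e, e ∈ H ↔ e ∈ E ∧ ∀ a ∈ K, ⁅e, a⁆ ∈ K₁ := fun e => Iff.rfl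
  have hlast : ∀ e ∈ E, e ∉ H → ∀ a ∈ K, ⁅e, a⁆ ∈ K₁ → a ∈ K₁ := by
    intro e he heH a ha hea
    have hL := hmax' (KST_L K K₁ e hnor) ?_ ?_ ?_
    · rcases hL with hL | hL
      · rw [← hL]
        exact ⟨ha, hea⟩
      · exfalso
        apply heH
        refine ⟨he, fun x hx => ?_⟩
        rw [← hL] at hx
        exact hx.2
    · intro x hx
      refine ⟨hltK.le hx, ?_⟩
      have h : ⁅e, x⁆ = (e * x * e⁻¹) * x⁻¹ := by
        simp only [commutatorElement_def]
      rw [h]
      exact K₁.mul_mem (hinv e he x hx) (K₁.inv_mem hx)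
    · rintro x ⟨hx, _⟩
      exact hx
    · rintro f hf x ⟨hx, hx'⟩
      refine ⟨hEK f hf x hx, ?_⟩
      have hc : e * f = f * e := hE.1 e he f hf
      have hc2 : e = f * e * f⁻¹ := by rw [← hc]; group
      have h : ⁅e, f * x * f⁻¹⁆ = f * ⁅e, x⁆ * f⁻¹ := by
        calc ⁅e, f * x * f⁻¹⁆ = ⁅f * e * f⁻¹, f * x * f⁻¹⁆ := by rw [← hc2]
          _ = f * ⁅e, x⁆ * f⁻¹ := by
            simp only [commutatorElement_def]; group
      rw [h]
      exact hinv f hf _ hx'
  refine ⟨K₁, H, hltK, fun e he => he.1, ?_, hinv, hnor, fun e he a ha => he.2 a ha, hlast⟩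
  -- the index
  by_cases hEH : E ≤ H
  · exact Or.inl (Subgroup.relIndex_eq_one.2 hEH)
  · right
    obtain ⟨b, hbE, hbH⟩ := Set.not_subset.1 hEH
    have hbE' : b ∈ E := hbE
    have hbH' : b ∉ H := hbH
    -- every element of E is in a coset of a power of b
    have key : ∀ a ∈ E, ∃ j : ℕ, a * b ^ j ∈ H := by
      intro a haE
      by_contra hcon
      push Not at hcon
      -- the quotient
      let N : Subgroup K := K₁.subgroupOf K
      have hN : N.Normal := ⟨fun n hn g => by
        rw [Subgroup.mem_subgroupOf] at hn ⊢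
        exact hnor g g.2 n hn⟩
      let iQ : CommGroup (K ⧸ N) :=
        { (QuotientGroup.Quotient.group N) with
          mul_comm := by
            intro x y
            induction x using QuotientGroup.induction_on with
            | H x =>
              induction y using QuotientGroup.induction_on with
              | H y =>
                change (QuotientGroup.mk (x * y) : K ⧸ N) = QuotientGroup.mk (y * x)
                rw [QuotientGroup.eq, Subgroup.mem_subgroupOf]
                apply hcK₁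
                have h : (((x * y)⁻¹ * (y * x) : K) : G) = ⁅((y⁻¹ : K) : G), ((x⁻¹ : K) : G)⁆ := by
                  simp only [commutatorElement_def]
                  push_cast
                  group
                rw [h]
                exact Subgroup.commutator_mem_commutator (y⁻¹).2 (x⁻¹).2 }
      let c : E → (K →* K) := fun e => MonoidHom.mk' (fun x => ⟨(e : G) * x * (e : G)⁻¹,
        hEK e e.2 x x.2⟩) (fun x y => by
          apply Subtype.ext
          push_cast
          group)
      have hc : ∀ e : E, ∀ x : K, ((c e x : K) : G) = (e : G) * x * (e : G)⁻¹ := fun e x => rfl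
      have hcN : ∀ e : E, N ≤ N.comap (c e) := by
        intro e x hx
        rw [Subgroup.mem_comap, Subgroup.mem_subgroupOf, hc]
        exact hinv e e.2 x (Subgroup.mem_subgroupOf.1 hx)
      let F : E → ((K ⧸ N) →* (K ⧸ N)) := fun e => QuotientGroup.map N N (c e) (hcN e)
      have hFmk : ∀ e : E, ∀ x : K, F e (QuotientGroup.mk x) = QuotientGroup.mk (c e x) :=
        fun e x => rfl
      have hF1 : ∀ m, F 1 m = m := by
        intro m
        induction m using QuotientGroup.induction_on with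
        | H x =>
          rw [hFmk]
          have : c 1 x = x := Subtype.ext (by rw [hc]; simp)
          rw [this]
      have hF : ∀ e f m, F (e * f) m = F e (F f m) := by
        intro e f m
        induction m using QuotientGroup.induction_on with
        | H x =>
          rw [hFmk, hFmk, hFmk]
          have : c (e * f) x = c e (c f x) := Subtype.ext (by
            rw [hc, hc, hc]
            push_cast
            group)
          rw [this]
      have hfix : ∀ e : E, (e : G) ∉ H → ∀ m, F e m = m → m = 1 := by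
        intro e he m hm
        induction m using QuotientGroup.induction_on with
        | H x =>
          rw [hFmk, QuotientGroup.eq, Subgroup.mem_subgroupOf] at hm
          have h1 : ⁅(e : G), (x : G)⁆ ∈ K₁ := by
            have h2 := hnor x x.2 _ (K₁.inv_mem hm)
            have h3 : ⁅(e : G), (x : G)⁆ = (x : G) * (((c e x)⁻¹ * x : K) : G)⁻¹ * (x : G)⁻¹ := by
              push_cast
              rw [hc]
              simp only [commutatorElement_def]
              group
            rw [h3]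
            exact h2
          have h4 := hlast e e.2 he x x.2 h1
          exact (QuotientGroup.eq_one_iff x).2 (Subgroup.mem_subgroupOf.2 h4)
      have hpm : ∀ m : K ⧸ N, m ^ p = 1 → m = 1 := by
        intro m hm
        have h1 : orderOf m ∣ p := orderOf_dvd_of_pow_eq_one hm
        rcases (Nat.dvd_prime hp).1 h1 with h | h
        · exact orderOf_eq_one_iff.1 h
        · exfalso
          apply hpK
          rw [← h]
          exact (orderOf_dvd_natCard m).trans (Subgroup.card_quotient_dvd_card N)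
      have hall := KST_abs F hF1 hF p hp (⟨a, haE⟩ : E) (⟨b, hbE'⟩ : E)
        (Subtype.ext (hE.1 a haE b hbE')) (Subtype.ext (hE.2 a haE)) (Subtype.ext (hE.2 b hbE'))
        (hfix _ hbH') (fun j => hfix _ (by
          have := hcon j
          simpa using this)) hpm
      apply hltK.not_ge
      intro x hx
      have h5 := hall (QuotientGroup.mk (⟨x, hx⟩ : K))
      exact Subgroup.mem_subgroupOf.1 ((QuotientGroup.eq_one_iff (⟨x, hx⟩ : K)).1 h5)
    -- compute the index
    have hHE : H ≤ E := fun e he => he.1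
    let N : Subgroup E := H.subgroupOf E
    have hN : N.Normal := ⟨fun n hn g => by
      have : g * n * g⁻¹ = n := by
        apply Subtype.ext
        push_cast
        rw [hE.1 g g.2 n n.2]
        group
      rw [this]
      exact hn⟩
    have hcard : Nat.card (E ⧸ N) = p := by
      have hb1 : (QuotientGroup.mk (⟨b, hbE'⟩ : E) : E ⧸ N) ≠ 1 := by
        intro h
        exact hbH' (Subgroup.mem_subgroupOf.1 ((QuotientGroup.eq_one_iff _).1 h))
      have hbp : (QuotientGroup.mk (⟨b, hbE'⟩ : E) : E ⧸ N) ^ p = 1 := by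
        rw [← QuotientGroup.mk_pow]
        have : (⟨b, hbE'⟩ : E) ^ p = 1 := Subtype.ext (hE.2 b hbE')
        rw [this, QuotientGroup.mk_one]
      have := Fact.mk hp
      have hord : orderOf (QuotientGroup.mk (⟨b, hbE'⟩ : E) : E ⧸ N) = p :=
        orderOf_eq_prime_iff.2 ⟨hbp, hb1⟩
      have htop : Subgroup.zpowers (QuotientGroup.mk (⟨b, hbE'⟩ : E) : E ⧸ N) = ⊤ := by
        rw [← top_le_iff]
        intro m _
        induction m using QuotientGroup.induction_on with
        | H x =>
          obtain ⟨j, hj⟩ := key x x.2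
          have h6 : (QuotientGroup.mk (x * (⟨b, hbE'⟩ : E) ^ j) : E ⧸ N) = 1 := by
            rw [QuotientGroup.eq_one_iff, Subgroup.mem_subgroupOf]
            simpa using hj
          rw [QuotientGroup.mk_mul, QuotientGroup.mk_pow] at h6
          have h7 : (QuotientGroup.mk x : E ⧸ N) =
              ((QuotientGroup.mk (⟨b, hbE'⟩ : E) : E ⧸ N) ^ j)⁻¹ := eq_inv_of_mul_eq_one_left h6
          rw [h7]
          exact Subgroup.inv_mem _ (Subgroup.pow_mem _ (Subgroup.mem_zpowers _) j)
      rw [← hord, ← Nat.card_zpowers, htop]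
      exact (Nat.card_congr (Subgroup.topEquiv.toEquiv)).symm
    rw [← hcard]
    rfl

end QS
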