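import Pool.Agent.helper4.QS.Spec

open scoped BigOperators ComplexOrder ComplexConjugate Topology
open Filter

namespace Pool.Agent.QS

open Pool.Agent.helper86.CM

theorem VAR_sum (a b : ℕ) (f : ℕ → ℝ) :
    ∑ i ∈ Finset.range (a * b), f i = ∑ q ∈ Finset.range b, ∑ r ∈ Finset.range a, f (a * q + r) := by
  induction b with
  | zero => simp
  | succ b ih => rw [Nat.mul_succ, Finset.sum_range_add, ih, Finset.sum_range_succ]

theorem VAR_cnt (s p : ℕ) (hp : p ≤ s) :
    ∑ r ∈ Finset.range s, (if p ≤ r then (1 : ℝ) else 0) = (s : ℝ) - p := by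
  obtain ⟨d, rfl⟩ := Nat.exists_eq_add_of_le hp
  rw [Finset.sum_range_add]
  have h1 : ∑ x ∈ Finset.range p, (if p ≤ x then (1 : ℝ) else 0) = 0 := by
    refine Finset.sum_eq_zero fun x hx => ?_
    rw [if_neg (by have := Finset.mem_range.1 hx; omega)]
  rw [h1]
  simp

theorem VAR_R (s J p : ℕ) (hs : 1 ≤ s) (hp : p ≤ s) :
    ∑ i ∈ Finset.range (2 * (s * J)), (if p ≤ i % s then (1 : ℝ) else 0) = 2 * J * ((s : ℝ) - p) := by
  rw [show 2 * (s * J) = s * (2 * J) by ring, VAR_sum]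
  have h1 : ∀ q ∈ Finset.range (2 * J),
      ∑ r ∈ Finset.range s, (if p ≤ (s * q + r) % s then (1 : ℝ) else 0) = (s : ℝ) - p := by
    intro q _
    rw [← VAR_cnt s p hp]
    refine Finset.sum_congr rfl fun r hr => ?_
    rw [Nat.mul_add_mod, Nat.mod_eq_of_lt (Finset.mem_range.1 hr)]
  rw [Finset.sum_congr rfl h1]
  simp
  ring

theorem VAR_E (s J j : ℕ) (hs : 1 ≤ s) (hj : j < J) :
    ∑ i ∈ Finset.range (2 * (s * J)), (if j = (i / s) % J then (1 : ℝ) else 0) = 2 * s := by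
  rw [show 2 * (s * J) = s * (J * 2) by ring, VAR_sum]
  have h1 : ∀ q ∈ Finset.range (J * 2),
      ∑ r ∈ Finset.range s, (if j = ((s * q + r) / s) % J then (1 : ℝ) else 0) =
        s * (if j = q % J then (1 : ℝ) else 0) := by
    intro q _
    have h2 : ∀ r ∈ Finset.range s, (if j = ((s * q + r) / s) % J then (1 : ℝ) else 0) =
        (if j = q % J then (1 : ℝ) else 0) := by
      intro r hr
      rw [Nat.mul_add_div (by omega), Nat.div_eq_of_lt (Finset.mem_range.1 hr), add_zero]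
    rw [Finset.sum_congr rfl h2]
    simp
  rw [Finset.sum_congr rfl h1, VAR_sum]
  have h3 : ∀ e ∈ Finset.range 2,
      ∑ r ∈ Finset.range J, (s : ℝ) * (if j = (J * e + r) % J then (1 : ℝ) else 0) = s := by
    intro e _
    have h2 : ∀ r ∈ Finset.range J, (s : ℝ) * (if j = (J * e + r) % J then (1 : ℝ) else 0) =
        (if j = r then (s : ℝ) else 0) := by
      intro r hr
      rw [Nat.mul_add_mod, Nat.mod_eq_of_lt (Finset.mem_range.1 hr)]
      split <;> simp
    rw [Finset.sum_congr rfl h2, Finset.sum_ite_eq, if_pos (Finset.mem_range.2 hj)]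
  rw [Finset.sum_congr rfl h3]
  simp

theorem VAR : VAR_stmt := by
  intro H _ _ T hT m w hw c hc s J p hs hJ hp ε hε hgood
  set n : ℕ := 2 * (s * J) with hn
  have hsJ : 1 ≤ s * J := Nat.mul_pos hs hJ
  have hn1 : 1 ≤ n := by omega
  have hnR : (0 : ℝ) < n := by exact_mod_cast hn1
  have hnC : (n : ℂ) ≠ 0 := by exact_mod_cast (by omega : n ≠ 0)
  set v : ℕ → Fin m → H := fun i l => T i (w l) - c • w l with hv
  set a : ℕ → ℕ → ℂ := fun i i' => ∑ l, inner ℂ (v i l) (v i' l) with ha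
  have hvn : ∀ i l, ‖v i l‖ ≤ 2 * ‖w l‖ := by
    intro i l
    calc ‖v i l‖ ≤ ‖T i (w l)‖ + ‖c • w l‖ := norm_sub_le _ _
      _ ≤ ‖w l‖ + 1 * ‖w l‖ := by
        rw [hT, norm_smul]
        gcongr
      _ = 2 * ‖w l‖ := by ring
  have ha4 : ∀ i i', ‖a i i'‖ ≤ 4 := by
    intro i i'
    calc ‖a i i'‖ ≤ ∑ l, ‖inner ℂ (v i l) (v i' l)‖ := norm_sum_le _ _
      _ ≤ ∑ l, 4 * ‖w l‖ ^ 2 := by
        refine Finset.sum_le_sum fun l _ => ?_
        calc ‖inner ℂ (v i l) (v i' l)‖ ≤ ‖v i l‖ * ‖v i' l‖ := norm_inner_le_norm _ _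
          _ ≤ (2 * ‖w l‖) * (2 * ‖w l‖) := by
            gcongr
            · exact hvn i l
            · exact hvn i' l
          _ = 4 * ‖w l‖ ^ 2 := by ring
      _ = 4 := by rw [← Finset.mul_sum, hw, mul_one]
  -- the pairs
  have hpair : ∀ i < n, ∀ i' < n, ‖a i i'‖ ≤ ε + 4 * ((if p ≤ i % s then (1 : ℝ) else 0) +
      (if p ≤ i' % s then (1 : ℝ) else 0) +
      (if (i / s) % J = (i' / s) % J then (1 : ℝ) else 0)) := by
    intro i hi i' hi'
    by_cases h1 : p ≤ i % s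
    · rw [if_pos h1]
      have := ha4 i i'
      have h2 : (0 : ℝ) ≤ (if p ≤ i' % s then (1 : ℝ) else 0) := by split <;> norm_num
      have h3 : (0 : ℝ) ≤ (if (i / s) % J = (i' / s) % J then (1 : ℝ) else 0) := by
        split <;> norm_num
      linarith
    by_cases h2 : p ≤ i' % s
    · rw [if_pos h2]
      have := ha4 i i'
      have h2 : (0 : ℝ) ≤ (if p ≤ i % s then (1 : ℝ) else 0) := by split <;> norm_num
      have h3 : (0 : ℝ) ≤ (if (i / s) % J = (i' / s) % J then (1 : ℝ) else 0) := by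
        split <;> norm_num
      linarith
    by_cases h3 : (i / s) % J = (i' / s) % J
    · rw [if_pos h3]
      have := ha4 i i'
      have h2 : (0 : ℝ) ≤ (if p ≤ i' % s then (1 : ℝ) else 0) := by split <;> norm_num
      have h3 : (0 : ℝ) ≤ (if p ≤ i % s then (1 : ℝ) else 0) := by
        split <;> norm_num
      linarith
    rw [if_neg h1, if_neg h2, if_neg h3]
    have hdec : ∀ x : ℕ, x / s / J * (s * J) + s * (x / s % J) + x % s = x := by
      intro x
      have e1 := Nat.div_add_mod x s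
      have e2 := Nat.div_add_mod (x / s) J
      calc x / s / J * (s * J) + s * (x / s % J) + x % s
          = s * (J * (x / s / J) + x / s % J) + x % s := by ring
        _ = x := by rw [e2, e1]
    have he : ∀ x < n, x / s / J < 2 := by
      intro x hx
      rw [Nat.div_div_eq_div_mul]
      exact Nat.div_lt_of_lt_mul (by rw [hn] at hx; rw [mul_comm]; exact hx)
    have h := hgood (i / s / J) (i' / s / J) (i / s % J) (i' / s % J) (i % s) (i' % s)
      (he i hi) (he i' hi') (Nat.mod_lt _ hJ) (Nat.mod_lt _ hJ) h3 (not_le.1 h1) (not_le.1 h2)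
    rw [hdec i, hdec i'] at h
    have : ‖a i i'‖ ≤ ε := h
    linarith
  -- the mean
  have hmean : ∀ l, (n : ℂ)⁻¹ • (∑ i ∈ Finset.range n, T i (w l)) - c • w l =
      (n : ℂ)⁻¹ • ∑ i ∈ Finset.range n, v i l := by
    intro l
    simp only [hv, Finset.sum_sub_distrib, Finset.sum_const, Finset.card_range, smul_sub]
    congr 1
    rw [← Nat.cast_smul_eq_nsmul ℂ, smul_smul, inv_mul_cancel₀ hnC, one_smul]
  have hsq : ∀ x : H, ((‖x‖ ^ 2 : ℝ) : ℂ) = inner ℂ x x := by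
    intro x
    rw [inner_self_eq_norm_sq_to_K]
    norm_cast
  have hLC : ((∑ l, ‖(n : ℂ)⁻¹ • (∑ i ∈ Finset.range n, T i (w l)) - c • w l‖ ^ 2 : ℝ) : ℂ) =
      ((n : ℂ)⁻¹ * (n : ℂ)⁻¹) * ∑ i ∈ Finset.range n, ∑ i' ∈ Finset.range n, a i i' := by
    push_cast
    have h1 : ∀ l, (‖(n : ℂ)⁻¹ • (∑ i ∈ Finset.range n, T i (w l)) - c • w l‖ : ℂ) ^ 2 =
        ((n : ℂ)⁻¹ * (n : ℂ)⁻¹) * ∑ i ∈ Finset.range n, ∑ i' ∈ Finset.range n,
          inner ℂ (v i l) (v i' l) := by
      intro l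
      rw [hmean l]
      have h2 := hsq ((n : ℂ)⁻¹ • ∑ i ∈ Finset.range n, v i l)
      push_cast at h2
      rw [h2, inner_smul_left, inner_smul_right, sum_inner, ← mul_assoc]
      congr 1
      · rw [map_inv₀, Complex.conj_natCast]
      · refine Finset.sum_congr rfl fun i _ => ?_
        rw [inner_sum]
    rw [Finset.sum_congr rfl fun l _ => h1 l, ← Finset.mul_sum]
    congr 1
    rw [Finset.sum_comm]
    refine Finset.sum_congr rfl fun i _ => ?_
    rw [Finset.sum_comm]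
  have hL : ∑ l, ‖(n : ℂ)⁻¹ • (∑ i ∈ Finset.range n, T i (w l)) - c • w l‖ ^ 2 ≤
      (n : ℝ)⁻¹ * (n : ℝ)⁻¹ * ∑ i ∈ Finset.range n, ∑ i' ∈ Finset.range n, ‖a i i'‖ := by
    have h0 : 0 ≤ ∑ l, ‖(n : ℂ)⁻¹ • (∑ i ∈ Finset.range n, T i (w l)) - c • w l‖ ^ 2 :=
      Finset.sum_nonneg fun l _ => by positivity
    calc ∑ l, ‖(n : ℂ)⁻¹ • (∑ i ∈ Finset.range n, T i (w l)) - c • w l‖ ^ 2
        = ‖((∑ l, ‖(n : ℂ)⁻¹ • (∑ i ∈ Finset.range n, T i (w l)) - c • w l‖ ^ 2 : ℝ) : ℂ)‖ := by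
          rw [Complex.norm_real, Real.norm_of_nonneg h0]
      _ = (n : ℝ)⁻¹ * (n : ℝ)⁻¹ *
          ‖∑ i ∈ Finset.range n, ∑ i' ∈ Finset.range n, a i i'‖ := by
          rw [hLC, norm_mul, norm_mul, norm_inv, Complex.norm_natCast]
      _ ≤ _ := by
          gcongr
          exact (norm_sum_le _ _).trans (Finset.sum_le_sum fun i _ => norm_sum_le _ _)
  refine hL.trans ?_
  have hrow : ∀ i ∈ Finset.range n, ∑ i' ∈ Finset.range n, ‖a i i'‖ ≤
      (n * ε + 4 * (2 * J * ((s : ℝ) - p) + 2 * s)) +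
        (4 * n) * (if p ≤ i % s then (1 : ℝ) else 0) := by
    intro i hi
    calc ∑ i' ∈ Finset.range n, ‖a i i'‖
        ≤ ∑ i' ∈ Finset.range n, (ε + 4 * ((if p ≤ i % s then (1 : ℝ) else 0) +
          (if p ≤ i' % s then (1 : ℝ) else 0) +
          (if (i / s) % J = (i' / s) % J then (1 : ℝ) else 0))) :=
          Finset.sum_le_sum fun i' hi' =>
            hpair i (Finset.mem_range.1 hi) i' (Finset.mem_range.1 hi')
      _ = _ := by
          rw [Finset.sum_add_distrib, ← Finset.mul_sum, Finset.sum_add_distrib,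
            Finset.sum_add_distrib, VAR_R s J p hs hp, VAR_E s J _ hs (Nat.mod_lt _ hJ)]
          simp only [Finset.sum_const, Finset.card_range, nsmul_eq_mul]
          ring
  have htot : ∑ i ∈ Finset.range n, ∑ i' ∈ Finset.range n, ‖a i i'‖ ≤
      n * (n * ε + 4 * (2 * J * ((s : ℝ) - p) + 2 * s)) + (4 * n) * (2 * J * ((s : ℝ) - p)) := by
    refine (Finset.sum_le_sum hrow).trans (le_of_eq ?_)
    rw [Finset.sum_add_distrib, ← Finset.mul_sum, VAR_R s J p hs hp]
    simp only [Finset.sum_const, Finset.card_range, nsmul_eq_mul]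
  calc (n : ℝ)⁻¹ * (n : ℝ)⁻¹ * ∑ i ∈ Finset.range n, ∑ i' ∈ Finset.range n, ‖a i i'‖
      ≤ (n : ℝ)⁻¹ * (n : ℝ)⁻¹ * (n * (n * ε + 4 * (2 * J * ((s : ℝ) - p) + 2 * s)) +
        (4 * n) * (2 * J * ((s : ℝ) - p))) := by
        gcongr
    _ = ε + 4 * (2 * ((s : ℝ) - p) / s + 1 / J) := by
        have hs0 : (s : ℝ) ≠ 0 := by exact_mod_cast (by omega : s ≠ 0)
        have hJ0 : (J : ℝ) ≠ 0 := by exact_mod_cast (by omega : J ≠ 0)
        rw [hn]
        push_cast
        field_simp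
        ring

end Pool.Agent.QS
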